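import Pool.Agent.helper23.HB.Stmts

/-!
# Hyperbolic branching Brownian motion, module LL: lower bound for the limit set
-/

open MeasureTheory ProbabilityTheory Set Filter Topology
open scoped ENNReal NNReal

namespace Pool.Agent.helper65.HB

open Pool.Agent.helper23.HB

/-! ## Deterministic part -/

theorem tsum_ind_mem (G : Finset Lab) : ∑' p : Lab, ind (p ∈ G) = (G.card : ℝ≥0∞) := by
  rw [tsum_eq_sum (s := G)]
  · rw [Finset.sum_congr rfl (fun p hp => ind_true hp)]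
    simp
  · intro p hp
    exact ind_false hp

theorem finite_Gd2 {h : ℝ} {gd : Set (ℝ × ℝ)} {n : ℕ} {τ : Lab → ℝ} {b : Lab → Pth}
    (hNE : NE τ) : (Gd2 h gd n τ b).Finite :=
  (hNE.finite_Alive (n * h)).subset fun _ hp => hp.1

theorem LL_det (hDET : St_DET) (hLCL : St_LCL) (τ : Lab → ℝ) (b : Lab → Pth)
    (R : Lab → ℝ → ℝ) (Z D : Lab → ℝ → ℂ) (hNE : NE τ) (hD : ∀ u t, ‖D u t‖ = 1)
    (hZ : ∀ u t, 0 ≤ t → ‖Z u t - D u t‖ ≤ 2 * Real.exp (-R u t)) (u : Lab)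
    (s κ h e f : ℝ) (gd : Set (ℝ × ℝ)) (hs : 0 < s) (hκ : 1 < κ) (hh : 0 < h) (he : 0 < e)
    (hlow : ∀ (n : ℕ) (p : Lab), p ∈ Gd2 h gd n (sh u τ) (sh u b) →
      f + e * (n * h) ≤ R (p ++ u) (birth τ u + n * h))
    (hN : Tendsto (fun n => Nn κ h gd n (sh u τ) (sh u b)) atTop (𝓝 0)) (L : ℕ)
    (hfreq : ∃ᶠ n : ℕ in atTop, 1 / 2 ≤ Mn κ h gd n (sh u τ) (sh u b) ∧
      ENNReal.ofReal ((κ ^ n)⁻¹ ^ 2) * ∑' z : Quad,
        ind (qu z ∈ Gd2 h gd n (sh u τ) (sh u b) ∧ qv z ∈ Gd2 h gd n (sh u τ) (sh u b) ∧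
          ¬(((n : ℝ) - 1) * h ≤ death (sh u τ) z.1)) *
        ‖D (qu z ++ u) (birth τ u + n * h) - D (qv z ++ u) (birth τ u + n * h)‖ₑ ^ (-s) ≤
      (L : ℝ≥0∞)) :
    ENNReal.ofReal s ≤ dimH (LSet τ Z) := by
  classical
  have hNE' : NE (sh u τ) := hNE.sh u
  let G : ℕ → Finset Lab := fun n => (finite_Gd2 (h := h) (gd := gd) (n := n) (b := sh u b) hNE').toFinset
  have hG : ∀ n p, p ∈ G n ↔ p ∈ Gd2 h gd n (sh u τ) (sh u b) := fun n p =>
    Set.Finite.mem_toFinset _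
  have hκn : ∀ n : ℕ, 0 < (κ ^ n)⁻¹ := fun n => inv_pos.mpr (pow_pos (by linarith) n)
  refine hDET (LSet τ Z) s (1 / 2) (L : ℝ) G (fun n => (κ ^ n)⁻¹)
    (fun n w => ((n : ℝ) - 1) * h ≤ death (sh u τ) w)
    (fun n p => D (p ++ u) (birth τ u + n * h))
    {n : ℕ | 1 / 2 ≤ Mn κ h gd n (sh u τ) (sh u b) ∧
      ENNReal.ofReal ((κ ^ n)⁻¹ ^ 2) * ∑' z : Quad,
        ind (qu z ∈ Gd2 h gd n (sh u τ) (sh u b) ∧ qv z ∈ Gd2 h gd n (sh u τ) (sh u b) ∧
          ¬(((n : ℝ) - 1) * h ≤ death (sh u τ) z.1)) *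
        ‖D (qu z ++ u) (birth τ u + n * h) - D (qv z ++ u) (birth τ u + n * h)‖ₑ ^ (-s) ≤
      (L : ℝ≥0∞)} hs (by norm_num) hκn ?_ ?_ ?_ ?_
  · intro n p hp q hq hpq
    rw [hG] at hp hq
    exact eq_of_suffix hNE'.1 hp.1 hq.1 hpq
  · have h1 : (fun n : ℕ => ENNReal.ofReal ((κ ^ n)⁻¹ ^ 2) * (((G n).card : ℝ≥0∞) +
        ∑' z : Quad, ind (qu z ∈ G n ∧ qv z ∈ G n ∧ ((n : ℝ) - 1) * h ≤ death (sh u τ) z.1))) =
        fun n => Nn κ h gd n (sh u τ) (sh u b) := by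
      funext n
      rw [← tsum_ind_mem]
      unfold Nn
      simp only [hG]
    rw [h1]
    exact hN
  · intro n hn
    simp only [hG]
    rw [ENNReal.ofReal_natCast]
    exact hn.2
  · intro U hU hAU
    obtain ⟨hcomp, hcatch⟩ := hLCL τ Z
    obtain ⟨t, ht⟩ := hcomp.elim_finite_subcover U hU hAU
    obtain ⟨k', hk'⟩ : ∃ k' : ℕ, ∀ i ∈ t, i < k' :=
      ⟨t.sup id + 1, fun i hi => Nat.lt_succ_of_le (Finset.le_sup (f := id) hi)⟩
    refine ⟨k', ?_⟩
    let O : Set ℂ := ⋃ i ∈ {i : ℕ | i < k'}, U i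
    have hO : IsOpen O := isOpen_biUnion fun i _ => hU i
    have hAO : LSet τ Z ⊆ O := by
      intro ζ hζ
      obtain ⟨i, hi⟩ := Set.mem_iUnion.mp (ht hζ)
      obtain ⟨hi1, hi2⟩ := Set.mem_iUnion.mp hi
      exact Set.mem_biUnion (hk' i hi1) hi2
    have hclaim : ∀ᶠ n : ℕ in atTop, ∀ p ∈ Gd2 h gd n (sh u τ) (sh u b),
        D (p ++ u) (birth τ u + n * h) ∈ O := by
      by_contra hcon
      rw [Filter.not_eventually] at hcon
      obtain ⟨ψ, hψ, hψ2⟩ := Filter.extraction_of_frequently_atTop hcon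
      have hψ3 : ∀ j, ∃ p ∈ Gd2 h gd (ψ j) (sh u τ) (sh u b),
          D (p ++ u) (birth τ u + ψ j * h) ∉ O := by
        intro j
        have := hψ2 j
        push Not at this
        exact this
      choose p hp1 hp2 using hψ3
      have hψt : Tendsto (fun j => (ψ j : ℝ) * h) atTop atTop :=
        (tendsto_natCast_atTop_atTop.comp hψ.tendsto_atTop).atTop_mul_const hh
      have h1 := hcatch O hO hAO (fun j => birth τ u + ψ j * h) (fun j => p j ++ u)
        (fun j => D (p j ++ u) (birth τ u + ψ j * h))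
        (tendsto_atTop_add_const_left _ _ hψt)
        (fun j => append_mem_Alive.mpr (hp1 j).1) (fun j => hD _ _) (by
          rw [tendsto_zero_iff_norm_tendsto_zero]
          refine squeeze_zero (fun j => norm_nonneg _)
            (g := fun j => 2 * Real.exp (-(f + e * (ψ j * h)))) ?_ ?_
          · intro j
            refine (hZ _ _ ?_).trans ?_
            · have h2 := birth_nonneg hNE.1 u
              have h3 : 0 ≤ (ψ j : ℝ) * h := by positivity
              linarith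
            · have h4 := hlow (ψ j) (p j) (hp1 j)
              have h5 : Real.exp (-R (p j ++ u) (birth τ u + ψ j * h)) ≤
                  Real.exp (-(f + e * (ψ j * h))) := Real.exp_le_exp.mpr (by linarith)
              linarith
          · have h6 : Tendsto (fun j => -(f + e * (ψ j * h))) atTop atBot :=
              tendsto_neg_atTop_atBot.comp
                (tendsto_atTop_add_const_left _ _ (hψt.const_mul_atTop he))
            have h7 := (Real.tendsto_exp_atBot.comp h6).const_mul 2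
            rw [mul_zero] at h7
            exact h7)
      obtain ⟨j, hj⟩ := h1.exists
      exact hp2 j hj
    refine (hfreq.and_eventually hclaim).mono ?_
    rintro n ⟨hn, hn2⟩
    refine ⟨hn, ?_⟩
    have hset : ({p | p ∈ G n ∧ ∃ i < k', D (p ++ u) (birth τ u + n * h) ∈ U i} : Set Lab) =
        (G n : Set Lab) := by
      ext p
      constructor
      · rintro ⟨h1, _⟩
        exact h1
      · intro h1
        refine ⟨h1, ?_⟩
        have h2 := hn2 p ((hG n p).mp h1)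
        obtain ⟨i, hi⟩ := Set.mem_iUnion.mp h2
        obtain ⟨hi1, hi2⟩ := Set.mem_iUnion.mp hi
        exact ⟨i, hi1, hi2⟩
    show 1 / 2 ≤ (κ ^ n)⁻¹ * (({p | p ∈ G n ∧ ∃ i < k',
      D (p ++ u) (birth τ u + n * h) ∈ U i} : Set Lab).ncard : ℝ)
    rw [hset, Set.ncard_coe_finset]
    have hM := hn.1
    unfold Mn at hM
    have h3 : ∑' p : Lab, ind (p ∈ Gd2 h gd n (sh u τ) (sh u b)) = ((G n).card : ℝ≥0∞) := by
      rw [← tsum_ind_mem]
      simp only [hG]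
    rw [h3, ← ENNReal.ofReal_natCast, ← ENNReal.ofReal_mul (hκn n).le] at hM
    have h4 : (1 / 2 : ℝ≥0∞) = ENNReal.ofReal (1 / 2) := by
      rw [ENNReal.ofReal_div_of_pos (by norm_num)]
      simp
    rw [h4] at hM
    exact (ENNReal.ofReal_le_ofReal_iff (mul_nonneg (hκn n).le (Nat.cast_nonneg _))).mp hM

/-! ## Measurability -/

theorem measurableSet_gdset (a η K h : ℝ) : MeasurableSet (gdset a η K h) := by
  have h1 : MeasurableSet {x : ℝ × ℝ | |x.1 - a * h| ≤ η * h} :=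
    measurableSet_le (measurable_fst.sub_const _).abs measurable_const
  have h2 : MeasurableSet {x : ℝ × ℝ | x.2 ≤ K * h} :=
    measurableSet_le measurable_snd measurable_const
  exact h1.inter h2

theorem measurableSet_Gd2 (h : ℝ) {gd : Set (ℝ × ℝ)} (hgd : MeasurableSet gd) (n : ℕ)
    (p : Lab) : MeasurableSet {x : (Lab → ℝ) × (Lab → Pth) | p ∈ Gd2 h gd n x.1 x.2} := by
  have h1 : MeasurableSet {x : (Lab → ℝ) × (Lab → Pth) | p ∈ Alive x.1 (n * h)} :=
    measurable_fst (measurableSet_Alive_left p (n * h))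
  have h2 : MeasurableSet {x : (Lab → ℝ) × (Lab → Pth) | GoodB h gd n (line x.1 x.2 p)} := by
    have e : {x : (Lab → ℝ) × (Lab → Pth) | GoodB h gd n (line x.1 x.2 p)} =
        ⋂ k ∈ {k : ℕ | k < n}, {x | blk h (line x.1 x.2 p) k ∈ gd} := by
      ext x
      simp only [mem_iInter]
      rfl
    rw [e]
    refine MeasurableSet.biInter (Set.to_countable _) fun k _ => ?_
    exact ((measurable_pi_apply k).comp (measurable_blk_line h p)) hgd
  exact h1.inter h2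

theorem measurableSet_deathle (x0 : ℝ) (w : Lab) :
    MeasurableSet {x : (Lab → ℝ) × (Lab → Pth) | x0 ≤ death x.1 w} :=
  measurableSet_le measurable_const ((measurable_death w).comp measurable_fst)

theorem measurable_Mn (κ h : ℝ) {gd : Set (ℝ × ℝ)} (hgd : MeasurableSet gd) (n : ℕ) :
    Measurable (fun x : (Lab → ℝ) × (Lab → Pth) => Mn κ h gd n x.1 x.2) :=
  (Measurable.tsum fun p => measurable_ind (measurableSet_Gd2 h hgd n p)).const_mul _

theorem measurable_Hn (κ γ h : ℝ) {gd : Set (ℝ × ℝ)} (hgd : MeasurableSet gd) (n : ℕ) :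
    Measurable (fun x : (Lab → ℝ) × (Lab → Pth) => Hn κ γ h gd n x.1 x.2) := by
  refine (Measurable.tsum fun z => Measurable.mul ?_ ?_).const_mul _
  · exact measurable_ind ((measurableSet_Gd2 h hgd n (qu z)).inter
      ((measurableSet_Gd2 h hgd n (qv z)).inter (measurableSet_deathle _ z.1).compl))
  · exact ENNReal.measurable_ofReal.comp (Real.measurable_exp.comp
      (((measurable_death z.1).comp measurable_fst).const_mul γ))

theorem measurable_Nn (κ h : ℝ) {gd : Set (ℝ × ℝ)} (hgd : MeasurableSet gd) (n : ℕ) :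
    Measurable (fun x : (Lab → ℝ) × (Lab → Pth) => Nn κ h gd n x.1 x.2) := by
  refine Measurable.const_mul (Measurable.add ?_ ?_) _
  · exact Measurable.tsum fun p => measurable_ind (measurableSet_Gd2 h hgd n p)
  · exact Measurable.tsum fun z => measurable_ind ((measurableSet_Gd2 h hgd n (qu z)).inter
      ((measurableSet_Gd2 h hgd n (qv z)).inter (measurableSet_deathle _ z.1)))

theorem measurable_Mn' (κ h : ℝ) {gd : Set (ℝ × ℝ)} (hgd : MeasurableSet gd) (n : ℕ)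
    {Ω : Type} [MeasurableSpace Ω] {T : Ω → Lab → ℝ} {B : Ω → Lab → Pth}
    (hTB : Measurable (fun ω => (T ω, B ω))) :
    Measurable (fun ω => Mn κ h gd n (T ω) (B ω)) := by
  have h1 := (measurable_Mn κ h hgd n).comp hTB
  exact h1

theorem measurable_Hn' (κ γ h : ℝ) {gd : Set (ℝ × ℝ)} (hgd : MeasurableSet gd) (n : ℕ)
    {Ω : Type} [MeasurableSpace Ω] {T : Ω → Lab → ℝ} {B : Ω → Lab → Pth}
    (hTB : Measurable (fun ω => (T ω, B ω))) :
    Measurable (fun ω => Hn κ γ h gd n (T ω) (B ω)) := by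
  have h1 := (measurable_Hn κ γ h hgd n).comp hTB
  exact h1

theorem measurable_Nn' (κ h : ℝ) {gd : Set (ℝ × ℝ)} (hgd : MeasurableSet gd) (n : ℕ)
    {Ω : Type} [MeasurableSpace Ω] {T : Ω → Lab → ℝ} {B : Ω → Lab → Pth}
    (hTB : Measurable (fun ω => (T ω, B ω))) :
    Measurable (fun ω => Nn κ h gd n (T ω) (B ω)) := by
  have h1 := (measurable_Nn κ h hgd n).comp hTB
  exact h1

theorem measurable_TB {Ω : Type} [MeasurableSpace Ω] {T : Ω → Lab → ℝ} {B : Ω → Lab → Pth}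
    (hT : ∀ u, Measurable (fun ω => T ω u)) (hB : ∀ u, Measurable (fun ω => B ω u)) (u : Lab) :
    Measurable (fun ω => (sh u (T ω), sh u (B ω))) :=
  (measurable_pi_lambda _ fun p => hT (p ++ u)).prodMk (measurable_pi_lambda _ fun p => hB (p ++ u))

theorem measurable_birth_comp {Ω : Type} [MeasurableSpace Ω] {T : Ω → Lab → ℝ}
    (hT : ∀ u, Measurable (fun ω => T ω u)) (u : Lab) :
    Measurable (fun ω => birth (T ω) u) :=
  (measurable_birth u).comp (measurable_pi_lambda _ hT)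

theorem measurableSet_E {Ω : Type} [MeasurableSpace Ω] {T : Ω → Lab → ℝ} {B : Ω → Lab → Pth}
    (hT : ∀ u, Measurable (fun ω => T ω u)) (hB : ∀ u, Measurable (fun ω => B ω u)) (u : Lab)
    {r : Ω → ℝ} (hr : Measurable r) (c0 K1 κ γ h : ℝ) (K0 : ℝ≥0∞) {gd : Set (ℝ × ℝ)}
    (hgd : MeasurableSet gd) (n : ℕ) :
    MeasurableSet {ω | c0 ≤ r ω ∧ r ω ≤ K1 ∧ 1 / 2 ≤ Mn κ h gd n (sh u (T ω)) (sh u (B ω)) ∧
      Hn κ γ h gd n (sh u (T ω)) (sh u (B ω)) ≤ K0} := by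
  refine MeasurableSet.inter (measurableSet_le measurable_const hr) ?_
  refine MeasurableSet.inter (measurableSet_le hr measurable_const) ?_
  refine MeasurableSet.inter (measurableSet_le measurable_const
    (measurable_Mn' κ h hgd n (measurable_TB hT hB u))) ?_
  exact measurableSet_le (measurable_Hn' κ γ h hgd n (measurable_TB hT hB u))
    measurable_const

/-- energy in the subtree of `u` -/
noncomputable def Ien {β lam : ℝ} {Ω : Type} [MeasurableSpace Ω] {P : Measure Ω}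
    (S : Sys β lam P) (u : Lab) (κ h s : ℝ) (gd : Set (ℝ × ℝ)) (n : ℕ) (ω : Ω) : ℝ≥0∞ :=
  ENNReal.ofReal ((κ ^ n)⁻¹ ^ 2) * ∑' z : Quad,
    ind (qu z ∈ Gd2 h gd n (sh u (S.T ω)) (sh u (S.B ω)) ∧
      qv z ∈ Gd2 h gd n (sh u (S.T ω)) (sh u (S.B ω)) ∧
      ¬(((n : ℝ) - 1) * h ≤ death (sh u (S.T ω)) z.1)) *
    ‖S.D ω (qu z ++ u) (birth (S.T ω) u + n * h) -
      S.D ω (qv z ++ u) (birth (S.T ω) u + n * h)‖ₑ ^ (-s)

theorem measurable_Ien (hMSYS : St_MSYS) {β lam : ℝ} {Ω : Type} [MeasurableSpace Ω]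
    {P : Measure Ω} [IsProbabilityMeasure P] (S : Sys β lam P) (u : Lab) (κ : ℝ) {h : ℝ} (s : ℝ)
    (hh : 0 ≤ h) {gd : Set (ℝ × ℝ)} (hgd : MeasurableSet gd) (n : ℕ) :
    Measurable (Ien S u κ h s gd n) := by
  have hTB := measurable_TB S.life.meas S.noiseB.meas u
  have ht : Measurable (fun ω => birth (S.T ω) u + n * h) :=
    (measurable_birth_comp S.life.meas u).add_const _
  have ht0 : ∀ ω, 0 ≤ birth (S.T ω) u + n * h := by
    intro ω
    have h1 := birth_nonneg (S.life.pos ω) u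
    positivity
  have hD := (hMSYS Ω P β lam S).2.2.2.2.1
  unfold Ien
  refine (Measurable.tsum fun z => Measurable.mul ?_ ?_).const_mul _
  · exact (measurable_ind ((measurableSet_Gd2 h hgd n (qu z)).inter
      ((measurableSet_Gd2 h hgd n (qv z)).inter (measurableSet_deathle _ z.1).compl))).comp hTB
  · exact (((hD (qu z ++ u) _ ht ht0).sub (hD (qv z ++ u) _ ht ht0)).enorm).pow_const _

/-! ## Main part -/

theorem mLL (hD5 : St_D5) (hLDP : St_LDP) (hE2M : St_E2M) (hE2A : St_E2A) (hTRI : St_TRI)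
    (hBIR : St_BIR) (hEN2 : St_EN2) (hLIMA : St_LIMA) (hDET : St_DET) (hLCL : St_LCL)
    (hSH : St_SH) (hSUBR : St_SUBR) (hCNT : St_CNT) (hSYS : St_SYS) (hMSYS : St_MSYS) :
    St_LL := by
  intro Ω _ P _ β lam hβ hlam S s hs hs1 hsβ
  have hc0 : 0 < lam + 1 / 2 := by linarith
  obtain ⟨a, η, hη, hηa, hspeed⟩ := hD5 β (lam + 1 / 2) s hβ hc0 hs (by
    intro h1
    have h2 := hsβ (by nlinarith)
    have h3 : √((1 + 2 * lam) ^ 2 - 8 * β) = 2 * √((lam + 1 / 2) ^ 2 - 2 * β) := by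
      rw [show (1 + 2 * lam) ^ 2 - 8 * β = 2 ^ 2 * ((lam + 1 / 2) ^ 2 - 2 * β) by ring,
        Real.sqrt_mul (by norm_num), Real.sqrt_sq (by norm_num)]
    rw [h3] at h2
    linarith)
  have hBM : BMp P (fun ω => (S.B ω [] : ℝ → ℝ)) :=
    ⟨fun ω => (S.B ω []).continuous, fun t => (measurable_pth_apply t).comp (S.noiseB.meas []),
      S.noiseB.bm []⟩
  obtain ⟨h, K, hh1, hK, hq⟩ := hLDP Ω P _ hBM (a - (lam + 1 / 2)) η hη
  have hh : 0 < h := by linarith
  have hgd := measurableSet_gdset (a - (lam + 1 / 2)) η K h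
  obtain ⟨q, hqdef⟩ : ∃ q : ℝ, q = (P {ω | blk h (S.B ω []) 0 ∈
      gdset (a - (lam + 1 / 2)) η K h}).toReal := ⟨_, rfl⟩
  have hqlow : Real.exp (-((|a - (lam + 1 / 2)| + η) ^ 2 / 2 + η) * h) ≤ q := by
    rw [hqdef]
    exact (ENNReal.ofReal_le_iff_le_toReal (measure_ne_top P _)).mp hq
  obtain ⟨γ, hγ⟩ : ∃ γ : ℝ, γ = s * (a + 3 * η) := ⟨_, rfl⟩
  have hγ0 : 0 < γ := by
    rw [hγ]
    have : 0 < a := by linarith
    positivity
  obtain ⟨κ, hκdef⟩ : ∃ κ : ℝ, κ = Real.exp (β * h) * q := ⟨_, rfl⟩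
  have hγκ : Real.exp (γ * h) < κ := by
    rw [hκdef]
    calc Real.exp (γ * h)
        < Real.exp (β * h + -((|a - (lam + 1 / 2)| + η) ^ 2 / 2 + η) * h) := by
          apply Real.exp_lt_exp.mpr
          rw [hγ]
          nlinarith
      _ = Real.exp (β * h) * Real.exp (-((|a - (lam + 1 / 2)| + η) ^ 2 / 2 + η) * h) :=
          Real.exp_add _ _
      _ ≤ Real.exp (β * h) * q := mul_le_mul_of_nonneg_left hqlow (Real.exp_pos _).le
  have h1κ : 1 < κ := by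
    refine lt_of_le_of_lt ?_ hγκ
    exact Real.one_le_exp (by positivity)
  obtain ⟨C, hC, hmom⟩ := hE2M Ω P β S.T S.B hβ S.life S.noiseB S.indepTB h γ κ
    (gdset (a - (lam + 1 / 2)) η K h) hh hγ0.le hgd (by rw [hκdef, hqdef]) h1κ hγκ
  have hTB0 : Measurable (fun ω => (S.T ω, S.B ω)) :=
    (measurable_pi_lambda _ S.life.meas).prodMk (measurable_pi_lambda _ S.noiseB.meas)
  have hMm : ∀ n, Measurable (fun ω =>
      Mn κ h (gdset (a - (lam + 1 / 2)) η K h) n (S.T ω) (S.B ω)) :=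
    fun n => measurable_Mn' κ h hgd n hTB0
  have hHm : ∀ n, Measurable (fun ω =>
      Hn κ γ h (gdset (a - (lam + 1 / 2)) η K h) n (S.T ω) (S.B ω)) :=
    fun n => measurable_Hn' κ γ h hgd n hTB0
  have hNm : ∀ n, Measurable (fun ω =>
      Nn κ h (gdset (a - (lam + 1 / 2)) η K h) n (S.T ω) (S.B ω)) :=
    fun n => measurable_Nn' κ h hgd n hTB0
  have hkey := hE2A Ω P κ C
    (fun n ω => Mn κ h (gdset (a - (lam + 1 / 2)) η K h) n (S.T ω) (S.B ω))
    (fun n ω => Hn κ γ h (gdset (a - (lam + 1 / 2)) η K h) n (S.T ω) (S.B ω))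
    (fun n ω => Nn κ h (gdset (a - (lam + 1 / 2)) η K h) n (S.T ω) (S.B ω)) h1κ hC hMm hHm hNm
    hmom
  obtain ⟨⟨K0, hK0⟩, hN0⟩ := hkey
  -- near diagonal pairs in all the subtrees
  have hNu : ∀ᵐ ω ∂P, ∀ u : Lab, Tendsto
      (fun n => Nn κ h (gdset (a - (lam + 1 / 2)) η K h) n (sh u (S.T ω)) (sh u (S.B ω)))
      atTop (𝓝 0) := by
    rw [ae_all_iff]
    intro u
    have hset : MeasurableSet {x : (Lab → ℝ) × (Lab → Pth) | Tendsto
        (fun n => Nn κ h (gdset (a - (lam + 1 / 2)) η K h) n x.1 x.2) atTop (𝓝 0)} :=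
      measurableSet_tendsto _ (fun n => measurable_Nn κ h hgd n)
    have h1 : ∀ᵐ x ∂(Measure.map (fun ω => (S.T ω, S.B ω)) P), Tendsto
        (fun n => Nn κ h (gdset (a - (lam + 1 / 2)) η K h) n x.1 x.2) atTop (𝓝 0) :=
      (ae_map_iff hTB0.aemeasurable hset).mpr hN0
    rw [← (hSH Ω P β S.T S.B hβ S.life S.noiseB S.indepTB u).2.2] at h1
    exact (ae_map_iff (measurable_TB S.life.meas S.noiseB.meas u).aemeasurable hset).mp h1
  -- the trials
  have hGm : MeasurableSet {x : (Lab → ℝ) × (Lab → Pth) | ∃ᶠ n in atTop,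
      1 / 2 ≤ Mn κ h (gdset (a - (lam + 1 / 2)) η K h) n x.1 x.2 ∧
      Hn κ γ h (gdset (a - (lam + 1 / 2)) η K h) n x.1 x.2 ≤ (K0 : ℝ≥0∞)} := by
    have e : {x : (Lab → ℝ) × (Lab → Pth) | ∃ᶠ n in atTop,
        1 / 2 ≤ Mn κ h (gdset (a - (lam + 1 / 2)) η K h) n x.1 x.2 ∧
        Hn κ γ h (gdset (a - (lam + 1 / 2)) η K h) n x.1 x.2 ≤ (K0 : ℝ≥0∞)} =
        limsup (fun n : ℕ => {x : (Lab → ℝ) × (Lab → Pth) |
          1 / 2 ≤ Mn κ h (gdset (a - (lam + 1 / 2)) η K h) n x.1 x.2 ∧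
          Hn κ γ h (gdset (a - (lam + 1 / 2)) η K h) n x.1 x.2 ≤ (K0 : ℝ≥0∞)}) atTop := by
      ext x
      rw [mem_limsup_iff_frequently_mem]
      rfl
    rw [e]
    apply MeasurableSet.measurableSet_limsup
    intro n
    exact (measurableSet_le measurable_const (measurable_Mn κ h hgd n)).inter
      (measurableSet_le (measurable_Hn κ γ h hgd n) measurable_const)
  have htri := hTRI Ω P β S.T S.B hβ S.life S.noiseB S.indepTB _ hGm hK0
  obtain ⟨r1E, hr1E, hEN2'⟩ := hEN2 η hη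
  obtain ⟨r1S, hr1S, hSUBR'⟩ := hSUBR η hη
  -- energies
  have hen : ∀ᵐ ω ∂P, ∀ (u : Lab) (K1 : ℕ),
      (∃ᶠ n in atTop, ω ∈ {ω | max r1E r1S + K * h ≤ S.R ω u (birth (S.T ω) u) ∧
        S.R ω u (birth (S.T ω) u) ≤ (K1 : ℝ) ∧
        1 / 2 ≤ Mn κ h (gdset (a - (lam + 1 / 2)) η K h) n (sh u (S.T ω)) (sh u (S.B ω)) ∧
        Hn κ γ h (gdset (a - (lam + 1 / 2)) η K h) n (sh u (S.T ω)) (sh u (S.B ω)) ≤
          (K0 : ℝ≥0∞)}) →
      ∃ L : ℕ, ∃ᶠ n in atTop, ω ∈ {ω | max r1E r1S + K * h ≤ S.R ω u (birth (S.T ω) u) ∧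
        S.R ω u (birth (S.T ω) u) ≤ (K1 : ℝ) ∧
        1 / 2 ≤ Mn κ h (gdset (a - (lam + 1 / 2)) η K h) n (sh u (S.T ω)) (sh u (S.B ω)) ∧
        Hn κ γ h (gdset (a - (lam + 1 / 2)) η K h) n (sh u (S.T ω)) (sh u (S.B ω)) ≤
          (K0 : ℝ≥0∞)} ∧
        Ien S u κ h s (gdset (a - (lam + 1 / 2)) η K h) n ω ≤ (L : ℝ≥0∞) := by
    rw [ae_all_iff]
    intro u
    rw [ae_all_iff]
    intro K1
    obtain ⟨C', hC', hC2⟩ := hEN2' Ω P β lam hβ hlam S u a K h κ s γ (K0 : ℝ) (K1 : ℝ) hs hs1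
      hηa.le hh hK.le (by linarith) (by rw [hγ]; nlinarith) (Nat.cast_nonneg _)
    refine hLIMA Ω P S.mR S.mR_le (fun n => Ien S u κ h s (gdset (a - (lam + 1 / 2)) η K h) n)
      (fun n => {ω | max r1E r1S + K * h ≤ S.R ω u (birth (S.T ω) u) ∧
        S.R ω u (birth (S.T ω) u) ≤ (K1 : ℝ) ∧
        1 / 2 ≤ Mn κ h (gdset (a - (lam + 1 / 2)) η K h) n (sh u (S.T ω)) (sh u (S.B ω)) ∧
        Hn κ γ h (gdset (a - (lam + 1 / 2)) η K h) n (sh u (S.T ω)) (sh u (S.B ω)) ≤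
          (K0 : ℝ≥0∞)}) C' ?_ ?_ hC' ?_
    · intro n
      exact measurable_Ien hMSYS S u κ s hh.le hgd n
    · intro n
      have hr : Measurable[S.mR] (fun ω => S.R ω u (birth (S.T ω) u)) :=
        (hMSYS Ω P β lam S).1 u _ (@measurable_birth_comp Ω S.mR S.T S.measT u)
          (fun ω => birth_nonneg (S.life.pos ω) u)
      exact @measurableSet_E Ω S.mR S.T S.B S.measT S.measB u _ hr _ _ κ γ h _ _ hgd n
    · intro n F hF hFE
      refine hC2 n F hF ?_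
      intro ω hω
      obtain ⟨h1, h2, _, h4⟩ := hFE hω
      refine ⟨?_, h2, ?_⟩
      · have := le_max_left r1E r1S
        linarith
      · rw [ENNReal.ofReal_natCast]
        exact h4
  filter_upwards [hNu, htri, hen, hBIR Ω P β lam hβ hlam S, (hCNT Ω P β S.T hβ S.life).2] with
    ω h1 h2 h3 h4 hNE
  obtain ⟨k, hk1, hk2⟩ := (h2.and_eventually
    (h4.eventually_ge_atTop (max r1E r1S + K * h))).exists
  obtain ⟨K1, hK1⟩ := exists_nat_ge (S.R ω (vk k) (birth (S.T ω) (vk k)))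
  obtain ⟨L, hL⟩ := h3 (vk k) K1 (hk1.mono fun n hn => ⟨hk2, hK1, hn.1, hn.2⟩)
  have hsys := hSYS Ω P β lam S
  refine LL_det hDET hLCL (S.T ω) (S.B ω) (S.R ω) (S.Z ω) (S.D ω) hNE
    (fun u t => hsys.2.2.2.2.2.1 ω u t) (fun u t ht => (hsys.2.2.2.2.2.2.1 ω u t ht).2.2) (vk k)
    s κ h (a - η) (S.R ω (vk k) (birth (S.T ω) (vk k)) - (a + K) * h)
    (gdset (a - (lam + 1 / 2)) η K h) hs h1κ hh (by linarith) ?_ (h1 (vk k)) L
    (hL.mono fun n hn => ⟨hn.1.2.2.1, hn.2⟩)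
  intro n p hp
  have hsub := (hSUBR' lam (S.T ω) (S.B ω) (S.R ω) hc0 (hsys.1 ω) (vk k) p a K h n hh hηa.le
    hK.le hp.2 (by
      have := le_max_right r1E r1S
      linarith) (n * h) (by positivity) le_rfl).1
  linarith

end Pool.Agent.helper65.HB
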